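import Mathlib
import Pool.Agent.helper95.Dr.Fin3

/-!
# The two-part of the Birch and Swinnerton-Dyer conjecture for `y² + y = x³` over real abelian fields

The two-part of the conjecture for the curve 27a over every totally real abelian field of
degree a power of two in which only primes modulo which two is not a cube ramify.
-/

namespace Pool.Agent.Results.MP_e996df_nt.TwoPartSilent

open NumberField IsDedekindDomain Pool.Agent.helper95

/-- Let `m` be squarefree, such that `2` is not a cube modulo any prime dividing `m`, and let `K` be a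
totally real subfield, of degree a power of two, of the field of `m`-th roots of unity. Let `E` be the
curve `y² + y = x³` over `K`. Then `E` is minimal at each finite place `v` of `K` and each integral local
point has nonsingular reduction (so that the global period for `dx / (2 y + 1)` is the product of the
real periods, and all Tamagawa numbers are `1`); `E(K)` is finite of odd order; the `2`-primary part
of the Tate-Shafarevich group is trivial; the `L`-function continues to `Re s > 1/2`, does not vanish at
`1`, and `L(E/K, 1) √|disc K|` divided by the product of the real periods is a rational number of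
`2`-adic valuation `0`. -/
theorem result (m : ℕ) (hm : Squarefree m)
    (hq : ∀ q : ℕ, q.Prime → q ∣ m → ¬ ∃ x : ZMod q, x ^ 3 = 2)
    (K : Type) [Field K] [NumberField K] [IsTotallyReal K]
    (ι : K →+* CyclotomicField m ℚ) (n : ℕ) (hn : Module.finrank ℚ K = 2 ^ n) :
    (∀ v : HeightOneSpectrum (𝓞 K),
      ((⟨0, 0, 1, 0, 0⟩ : WeierstrassCurve K).baseChange (v.adicCompletion K)).IsMinimal
        (v.adicCompletionIntegers K) ∧
      ∀ x y : v.adicCompletionIntegers K, y ^ 2 + y = x ^ 3 →
        IsUnit (3 * x ^ 2) ∨ IsUnit (2 * y + 1)) ∧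
    (Finite (⟨0, 0, 1, 0, 0⟩ : WeierstrassCurve K).toAffine.Point ∧
      Odd (Nat.card (⟨0, 0, 1, 0, 0⟩ : WeierstrassCurve K).toAffine.Point)) ∧
    ShaPrimaryTrivial (⟨0, 0, 1, 0, 0⟩ : WeierstrassCurve K) 2 ∧
    ∃ F : ℂ → ℂ, DifferentiableOn ℂ F {s | 1 / 2 < s.re} ∧
      (∀ s : ℂ, 3 / 2 < s.re → F s = (⟨0, 0, 1, 0, 0⟩ : WeierstrassCurve K).LSeries s) ∧
      F 1 ≠ 0 ∧
      ∃ r : ℚ, F 1 * √|(discr K : ℝ)| =
        r * ((2 * ∫ x in {x : ℝ | 0 < 4 * x ^ 3 + 1}, 1 / √(4 * x ^ 3 + 1) : ℝ) : ℂ) ^ (2 ^ n) ∧
        padicValRat 2 r = 0 := by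
  have : NeZero m := ⟨hm.ne_zero⟩
  have : NeZero ((m : ℕ) : ℚ) := ⟨by exact_mod_cast hm.ne_zero⟩
  have hcyc : IsCyclotomicExtension {m} ℚ (CyclotomicField m ℚ) :=
    CyclotomicField.isCyclotomicExtension m ℚ
  have : NumberField (CyclotomicField m ℚ) := IsCyclotomicExtension.numberField {m} ℚ _
  exact Dr.full m hm hq K inferInstance n hn (CyclotomicField m ℚ) ι

end Pool.Agent.Results.MP_e996df_nt.TwoPartSilent
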